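import Mathlib
import Pool.Agent.N357.Pent.Mid

set_option autoImplicit false

namespace Pool.Agent.Results.MP_4f8f6c_nt.TwoModFour

open Polynomial

/-- `f ∈ 𝔽₂[x]` is primitive: degree `n ≥ 1`, `f(0) = 1`, irreducible, and the least positive `t`
with `f ∣ x^t + 1` is `2^n - 1`. -/
def IsPrimitivePoly (f : (ZMod 2)[X]) : Prop :=
  1 ≤ f.natDegree ∧ f.coeff 0 = 1 ∧ Irreducible f ∧
    IsLeast {t : ℕ | 0 < t ∧ f ∣ X ^ t + 1} (2 ^ f.natDegree - 1)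

/-- a trinomial of degree `n` -/
def IsTrinomial (n : ℕ) (f : (ZMod 2)[X]) : Prop :=
  ∃ a : ℕ, 0 < a ∧ a < n ∧ f = X ^ n + X ^ a + 1

/-- a pentanomial of degree `n` -/
def IsPentanomial (n : ℕ) (f : (ZMod 2)[X]) : Prop :=
  ∃ a₁ a₂ a₃ : ℕ, 0 < a₁ ∧ a₁ < a₂ ∧ a₂ < a₃ ∧ a₃ < n ∧ f = X ^ n + X ^ a₃ + X ^ a₂ + X ^ a₁ + 1

theorem cop5 (n : ℕ) (h : n % 4 = 2) : Nat.Coprime 5 (2 ^ n - 1) := by
  rw [Nat.Prime.coprime_iff_not_dvd (by norm_num)]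
  intro hd
  obtain ⟨m, rfl⟩ : ∃ m, n = 4 * m + 2 := ⟨n / 4, by omega⟩
  have h1 : 2 ^ (4 * m + 2) % 5 = 4 := by
    rw [pow_add, pow_mul, Nat.mul_mod, Nat.pow_mod]
    norm_num
  have h2 : 1 ≤ 2 ^ (4 * m + 2) := Nat.one_le_two_pow
  omega

theorem cop7 (n : ℕ) (h : ¬ 3 ∣ n) : Nat.Coprime 7 (2 ^ n - 1) := by
  rw [Nat.Prime.coprime_iff_not_dvd (by norm_num)]
  intro hd
  have h0 : 2 ^ n % 7 = 2 ^ (n % 3) % 7 := by
    conv_lhs => rw [← Nat.div_add_mod n 3]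
    rw [pow_add, pow_mul, Nat.mul_mod, Nat.pow_mod]
    norm_num
  have h2 : 1 ≤ 2 ^ n := Nat.one_le_two_pow
  have h3 : n % 3 = 1 ∨ n % 3 = 2 := by omega
  rcases h3 with h3 | h3 <;> rw [h3] at h0 <;> norm_num at h0 <;> omega

/-- a root in an extension, of order `2^n - 1` -/
theorem root_of {n a : ℕ} (ha : 0 < a) (han : a < n)
    (h : IsPrimitivePoly (X ^ n + X ^ a + 1)) :
    ∃ (K : Type) (_ : Field K) (_ : Algebra (ZMod 2) K) (α : K),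
      α ^ n + α ^ a + 1 = 0 ∧ orderOf α = 2 ^ n - 1 := by
  obtain ⟨K, iF, iA, α, h1, h2⟩ := Pool.Agent.N357.Pent.exists_root _ h
  refine ⟨K, iF, iA, α, ?_, ?_⟩
  · simpa using h1
  · obtain ⟨_, hd⟩ := Pool.Agent.N357.Pent.monic_deg (n := n) (X ^ a + 1) (by omega)
      (Pool.Agent.N357.Pent.natDegree_lt (by rw [natDegree_X_pow]; omega)
        (by rw [natDegree_one]; omega))
    rw [add_assoc, hd] at h2
    exact h2

/-- **MP_4f8f6c_nt, partial.** -/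
theorem result :
    -- all degrees `n ≡ 2 (mod 4)`, `n ≥ 6`
    (∀ n : ℕ, 6 ≤ n → n % 4 = 2 → (∃ f, IsTrinomial n f ∧ IsPrimitivePoly f) →
      ∃ g, IsPentanomial n g ∧ IsPrimitivePoly g) ∧
    -- even `n ≥ 6` not divisible by `3`, from a primitive trinomial `x^n + x^a + 1` with
    -- `n`, `a`, `n - a` not divisible by `7`
    (∀ n a : ℕ, 6 ≤ n → Even n → 0 < a → a < n →
      IsPrimitivePoly (X ^ n + X ^ a + 1) →
      ¬ 3 ∣ n → ¬ 7 ∣ n → ¬ 7 ∣ a → ¬ 7 ∣ n - a →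
      ∃ g, IsPentanomial n g ∧ IsPrimitivePoly g) ∧
    -- even `n ≥ 6`, from a primitive trinomial `x^n + x^a + 1` such that for some `r ≥ 2` the number
    -- `2^r + 1` is coprime to `2^n - 1` and divides one of `n`, `a`, `n - a`
    (∀ n a r : ℕ, 6 ≤ n → Even n → 0 < a → a < n →
      IsPrimitivePoly (X ^ n + X ^ a + 1) →
      2 ≤ r → Nat.Coprime (2 ^ r + 1) (2 ^ n - 1) →
      (2 ^ r + 1 ∣ n ∨ 2 ^ r + 1 ∣ a ∨ 2 ^ r + 1 ∣ n - a) →
      ∃ g, IsPentanomial n g ∧ IsPrimitivePoly g) := by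
  refine ⟨?_, ?_, ?_⟩
  · rintro n hn h4 ⟨f, ⟨a, ha, han, rfl⟩, hf⟩
    obtain ⟨K, iF, iA, α, h, hα⟩ := root_of ha han hf
    exact Pool.Agent.N357.Pent.all_five hn (by omega) ha han α hα (cop5 n h4) h
  · intro n a hn hev ha han hf h3 h7n h7a h7d
    obtain ⟨K, iF, iA, α, h, hα⟩ := root_of ha han hf
    exact Pool.Agent.N357.Pent.all_seven hn (by omega) ha han (by omega) (by omega) (by omega)
      α hα (cop7 n h3) h
  · intro n a r hn hev ha han hf hr hc hd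
    obtain ⟨K, iF, iA, α, h, hα⟩ := root_of ha han hf
    have hev' : n % 2 = 0 := Nat.even_iff.1 hev
    rcases hd with ⟨l, hl⟩ | ⟨l, hl⟩ | ⟨l, hl⟩
    · exact Pool.Agent.N357.Pent.fam_n hev' ha han hr hl α hα hc h
    · exact Pool.Agent.N357.Pent.fam_k ha han (by omega) hl α hα hc h
    · have hl' : n = a + (2 ^ r + 1) * l := by omega
      exact Pool.Agent.N357.Pent.fam_nk ha han (by omega) hl' α hα hc h

end Pool.Agent.Results.MP_4f8f6c_nt.TwoModFour
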